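import Pool.Agent.R183.PL.F2

/-!
# The Breaker threshold exponent in the segment game is never positive

The game, winning line segments, `τ_n` and Maker wins are defined in
`Pool/Agent/R183/PL/Game.lean`.
-/

namespace Pool.Agent.Results.MP_7018e1_co.NeverPositive

open Pool.Agent.R183.PL

/-- The threshold exponent `β_c(α)`, with values in the extended reals: the supremum of the real
numbers `β` for which the game with `m(t) = ⌊t^α⌋` and `b(t) = ⌊t^β⌋` is a Maker win. -/
noncomputable def betaC (α : ℝ) : EReal :=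
  sSup {x : EReal | ∃ β : ℝ, x = (β : EReal) ∧
    MakerWin (fun t => ⌊(t : ℝ) ^ α⌋₊) (fun t => ⌊(t : ℝ) ^ β⌋₊)}

theorem floor_near (x : ℝ) (hx : 0 ≤ x) : |((⌊x⌋₊ : ℕ) : ℝ) - x| ≤ 1 := by
  have h1 := Nat.floor_le hx
  have h2 := (Nat.lt_floor_add_one x).le
  rw [abs_le]
  constructor <;> linarith

/-- For every real `α` and every `β > 0` the game is not a Maker win; hence `β_c(α) > 0` holds
for no `α` (in particular for no `α < 1`). -/
theorem result :
    (∀ α β : ℝ, 0 < β → ¬ MakerWin (fun t => ⌊(t : ℝ) ^ α⌋₊) (fun t => ⌊(t : ℝ) ^ β⌋₊)) ∧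
      ¬ ∃ α : ℝ, α < 1 ∧ 0 < betaC α := by
  have key : ∀ α β : ℝ, 0 < β →
      ¬ MakerWin (fun t => ⌊(t : ℝ) ^ α⌋₊) (fun t => ⌊(t : ℝ) ^ β⌋₊) := by
    intro α β hβ
    have hb : ∀ t : ℕ, |((⌊(t : ℝ) ^ β⌋₊ : ℕ) : ℝ) - (t : ℝ) ^ β| ≤ 1 :=
      fun t => floor_near _ (Real.rpow_nonneg (Nat.cast_nonneg t) β)
    rcases lt_or_ge 0 α with hα | hα
    · exact not_makerWin α β hα hβ _ _
        (fun t => floor_near _ (Real.rpow_nonneg (Nat.cast_nonneg t) α)) hb
    · refine not_makerWin_one β hβ _ _ (fun t => ?_) hb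
      have h1 : (t : ℝ) ^ α ≤ 1 := by
        rcases Nat.eq_zero_or_pos t with rfl | ht
        · rcases hα.eq_or_lt with h0 | h0
          · rw [h0]
            simp
          · rw [Nat.cast_zero, Real.zero_rpow h0.ne]
            exact zero_le_one
        · exact Real.rpow_le_one_of_one_le_of_nonpos (by exact_mod_cast ht) hα
      have h2 : ((⌊(t : ℝ) ^ α⌋₊ : ℕ) : ℝ) ≤ 1 :=
        (Nat.floor_le (Real.rpow_nonneg (Nat.cast_nonneg t) α)).trans h1
      exact_mod_cast h2
  refine ⟨key, ?_⟩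
  rintro ⟨α, _, hpos⟩
  have hle : betaC α ≤ 0 := by
    refine sSup_le ?_
    rintro x ⟨β, rfl, hwin⟩
    by_contra hcon
    push Not at hcon
    exact key α β (by exact_mod_cast hcon) hwin
  exact absurd hpos (not_lt.2 hle)

end Pool.Agent.Results.MP_7018e1_co.NeverPositive
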